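import Pool.Agent.H95.ILV.Targets

/-! Translation by half a period multiplies the Fourier coefficients by alternating signs. -/

set_option autoImplicit false

open MeasureTheory AddCircle Filter Topology Pool.Agent.H87.Synth Pool.Agent.H23.Synth
  Pool.Agent.H95.ILV

namespace Pool.Agent.H59.ILV

theorem fourier_pi (n : ℤ) : (fourier n ((Real.pi : ℝ) : Circ) : ℂ) = (-1) ^ n := by
  have h1 : (fourier 1 ((Real.pi : ℝ) : Circ) : ℂ) = -1 := by
    rw [fourier_coe_apply]
    have hpi : (Real.pi : ℂ) ≠ 0 := by exact_mod_cast Real.pi_ne_zero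
    have e : 2 * (Real.pi : ℂ) * Complex.I * ((1 : ℤ) : ℂ) * ((Real.pi : ℝ) : ℂ) /
        ((2 * Real.pi : ℝ) : ℂ) = (Real.pi : ℂ) * Complex.I := by
      push_cast
      field_simp
    rw [e, Complex.exp_pi_mul_I]
  rw [fourier_eq_zpow, h1]

theorem pf_ALT : T_ALT := by
  intro h
  let p : Circ := ((Real.pi : ℝ) : Circ)
  have hmp : MeasurePreserving (fun x : Circ => x + p) haarAddCircle haarAddCircle :=
    measurePreserving_add_right _ p
  refine ⟨Lp.compMeasurePreserving (fun x => x + p) hmp h, fun n => ?_, ?_⟩
  · rw [coeff_def, coeff_def]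
    have h1 : (fun x : Circ => (fourier (-n) x : ℂ) *
        (Lp.compMeasurePreserving (fun x => x + p) hmp h : L1) x) =ᵐ[haarAddCircle]
        fun x => (fun y : Circ => (fourier (-n) (y - p) : ℂ) * h y) (x + p) := by
      filter_upwards [Lp.coeFn_compMeasurePreserving h hmp] with x hx
      rw [hx]
      simp
    rw [integral_congr_ae h1, integral_add_right_eq_self
      (fun y : Circ => (fourier (-n) (y - p) : ℂ) * h y) p]
    have h2 : ∀ y : Circ, (fourier (-n) (y - p) : ℂ) * h y =
        (-1) ^ n * ((fourier (-n) y : ℂ) * h y) := by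
      intro y
      have e : (fourier (-n) (y - p) : ℂ) = fourier (-n) y * fourier n p := by
        rw [sub_eq_add_neg]
        simp [fourier_apply, smul_add, toCircle_add]
      rw [e, fourier_pi]
      ring
    simp only [h2]
    rw [integral_const_mul]
  · rw [Lp.norm_compMeasurePreserving]

end Pool.Agent.H59.ILV
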