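import Pool.Agent.H95.ILV.Targets

/-! The function of the construction exists. -/

set_option autoImplicit false

open MeasureTheory AddCircle Filter Topology Pool.Agent.H87.Synth Pool.Agent.H23.Synth
  Pool.Agent.H95.ILV

namespace Pool.Agent.H59.ILV

theorem sum1 (c : ℕ) : Summable fun k : ℕ => (1 / 3 : ℝ) ^ k * ((2 ^ (k + 1) - 1 + c : ℕ) : ℝ) := by
  have h1 : Summable fun k : ℕ => 2 * (2 / 3 : ℝ) ^ k + c * (1 / 3 : ℝ) ^ k :=
    ((summable_geometric_of_lt_one (by norm_num) (by norm_num)).mul_left 2).add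
      ((summable_geometric_of_lt_one (by norm_num) (by norm_num)).mul_left (c : ℝ))
  refine Summable.of_nonneg_of_le (fun k => by positivity) (fun k => ?_) h1
  have h2 : ((2 ^ (k + 1) - 1 + c : ℕ) : ℝ) ≤ 2 ^ (k + 1) + c := by
    have : 2 ^ (k + 1) - 1 + c ≤ 2 ^ (k + 1) + c := Nat.add_le_add_right (Nat.sub_le _ _) c
    exact_mod_cast this
  calc (1 / 3 : ℝ) ^ k * ((2 ^ (k + 1) - 1 + c : ℕ) : ℝ) ≤ (1 / 3 : ℝ) ^ k * (2 ^ (k + 1) + c) :=
        mul_le_mul_of_nonneg_left h2 (by positivity)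
    _ = 2 * (2 / 3 : ℝ) ^ k + c * (1 / 3 : ℝ) ^ k := by
      rw [div_pow 2 3, div_pow 1 3, one_pow, pow_succ]
      ring

theorem sum2 (C : ℝ) : Summable fun k : ℕ => (1 / 3 : ℝ) ^ k * (C * 2 ^ k * ((k : ℝ) + 1) ^ 2) := by
  have h1 : Summable fun n : ℕ => ((n : ℝ) ^ 2 * (2 / 3 : ℝ) ^ n) :=
    summable_pow_mul_geometric_of_norm_lt_one 2 (by norm_num)
  have h2 := ((summable_nat_add_iff 1).2 h1).mul_left (C * (3 / 2))
  refine h2.congr fun k => ?_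
  push_cast
  rw [pow_succ (2 / 3 : ℝ) k, div_pow 2 3, div_pow 1 3, one_pow]
  ring

theorem pf_FNX (h1 : T_FEX) (h2 : T_GEL) : T_FNX := by
  intro C s γ hG c T M u κ hGeo
  obtain ⟨-, -, h3, -, -, -⟩ := h2 c T M u κ hGeo
  refine h1 (fun k => Bd M κ (2 ^ (k + 1) - 1)) (fun k => u (2 ^ (k + 1) - 1))
    (fun k => 2 ^ (6 * k + 3)) (fun k => 2 ^ (k + 1) - 1 + c) s
    (fun k => C * 2 ^ k * ((k : ℝ) + 1) ^ 2) ?_ ?_ ?_ ?_ ?_ (sum1 c) (sum2 C)
  · intro k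
    apply h3
    have e : 2 ^ (k + 1 + 1) = 2 * 2 ^ (k + 1) := by rw [pow_succ]; ring
    have h : 1 ≤ 2 ^ (k + 1) := Nat.one_le_two_pow
    show 2 ^ (k + 1) - 1 < 2 ^ (k + 1 + 1) - 1
    omega
  · intro k
    exact le_trans (by norm_num) (hGeo.u2 (2 ^ (k + 1) - 1))
  · intro k
    exact hGeo.gd k
  · intro k
    refine le_trans ?_ (hGeo.vp (2 ^ (k + 1) - 1))
    show Bd M κ (2 ^ (k + 1) - 1) + 3 * u (2 ^ (k + 1) - 1) ≤ _
    omega
  · intro k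
    exact (hG k).norm

end Pool.Agent.H59.ILV
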