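import Pool.Agent.H95.ILV.Targets

/-! The lower bound for sums of Dirichlet kernels. -/

set_option autoImplicit false

open MeasureTheory AddCircle Filter Topology Pool.Agent.H87.Synth Pool.Agent.H23.Synth
  Pool.Agent.H95.ILV

namespace Pool.Agent.H59.ILV

noncomputable section

/-- the index set -/
def IS (M : ℕ) : Finset (ℕ × Bool) := Finset.range M ×ˢ Finset.univ

def nu (κ : ℕ → ℕ) (π : ℤ) (p : ℕ × Bool) : ℤ := sg p.2 * κ p.1 + (if p.2 then 0 else 1 - π)

def gg (w : ℕ → ℂ) (p : ℕ × Bool) : ℂ := if p.2 then w p.1 else - w p.1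

def tau (p : ℕ × Bool) : ℕ × Bool := (p.1, !p.2)

theorem mem_IS {M : ℕ} {p : ℕ × Bool} : p ∈ IS M ↔ p.1 < M := by
  simp [IS]

theorem quad {T M : ℕ} {κ : ℕ → ℕ} {π : ℤ} (hT : 2 ≤ T) (hπ : π = 0 ∨ π = 1) (hg : Gap T M κ)
    {t : ℕ} (ht : t < T) : Quad (IS M) (nu κ π) tau (2 ^ t) := by
  constructor
  · intro a ha
    have h0 : a.1 < M := mem_IS.1 ha
    refine ⟨mem_IS.2 h0, ?_, ?_⟩
    · intro h
      have := congrArg Prod.snd h
      simp [tau] at this
    · simp [tau]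
  · rintro ⟨a, e1⟩ ha ⟨b, e2⟩ hb ⟨c, e3⟩ hc ⟨d, e4⟩ hd hlt
    have hp : (2 : ℤ) ^ t + 2 ≤ 2 ^ T := by
      obtain ⟨r, rfl⟩ : ∃ r, T = r + 1 := ⟨T - 1, by omega⟩
      have h1 : (2 : ℤ) ^ t ≤ 2 ^ r := pow_le_pow_right₀ (by norm_num) (by omega)
      have h2 : (2 : ℤ) ^ 1 ≤ 2 ^ r := pow_le_pow_right₀ (by norm_num) (by omega)
      rw [pow_succ]
      linarith
    have key : |sg e1 * κ a + sg e2 * κ b - sg e3 * κ c - sg e4 * κ d| < (2 : ℤ) ^ T := by
      refine lt_of_lt_of_le ?_ hp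
      have e : sg e1 * κ a + sg e2 * κ b - sg e3 * κ c - sg e4 * κ d =
          (nu κ π (a, e1) + nu κ π (b, e2) - nu κ π (c, e3) - nu κ π (d, e4)) -
          ((if e1 then 0 else 1 - π) + (if e2 then 0 else 1 - π) - (if e3 then 0 else 1 - π) -
            (if e4 then 0 else 1 - π)) := by
        simp only [nu]
        ring
      have hs : |((if e1 then 0 else 1 - π) + (if e2 then 0 else 1 - π) -
          (if e3 then 0 else 1 - π) - (if e4 then 0 else 1 - π) : ℤ)| ≤ 2 := by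
        rcases hπ with rfl | rfl <;> cases e1 <;> cases e2 <;> cases e3 <;> cases e4 <;> simp
      rw [e]
      push_cast at hlt
      have := abs_sub (nu κ π (a, e1) + nu κ π (b, e2) - nu κ π (c, e3) - nu κ π (d, e4))
        ((if e1 then 0 else 1 - π) + (if e2 then 0 else 1 - π) - (if e3 then 0 else 1 - π) -
            (if e4 then 0 else 1 - π))
      linarith
    rcases hg a b c d (mem_IS.1 ha) (mem_IS.1 hb) (mem_IS.1 hc) (mem_IS.1 hd) e1 e2 e3 e4 key with
      ⟨rfl, rfl, rfl, rfl⟩ | ⟨rfl, rfl, rfl, rfl⟩ | ⟨rfl, rfl, rfl, rfl⟩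
    · exact Or.inl ⟨rfl, rfl⟩
    · exact Or.inr (Or.inl ⟨rfl, rfl⟩)
    · exact Or.inr (Or.inr ⟨rfl, rfl⟩)

/-- the sum as a function -/
def DD (κ : ℕ → ℕ) (π : ℤ) (M : ℕ) (w : ℕ → ℂ) (x : Circ) : ℂ :=
  ∑ j ∈ Finset.range M, w j * ∑ k ∈ Finset.Ico (-(κ j : ℤ) + 1 - π) (κ j : ℤ), (fourier k x : ℂ)

theorem continuous_DD (κ : ℕ → ℕ) (π : ℤ) (M : ℕ) (w : ℕ → ℂ) : Continuous (DD κ π M w) :=
  continuous_finsetSum _ fun _ _ => continuous_const.mul
    (continuous_finsetSum _ fun k _ => (fourier k).continuous)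

theorem ES_eq {κ : ℕ → ℕ} {π : ℤ} {M : ℕ} (hπ : π = 0 ∨ π = 1) (hκ : ∀ j < M, 1 ≤ κ j)
    (w : ℕ → ℂ) (x : Circ) :
    ES (IS M) (nu κ π) (gg w) x = DD κ π M w x * ((fourier 1 x : ℂ) - 1) := by
  unfold ES IS DD
  rw [Finset.sum_product, Finset.sum_mul]
  refine Finset.sum_congr rfl fun j hj => ?_
  have hj' := hκ j (Finset.mem_range.1 hj)
  have h1 := sum_fourier_mul (-(κ j : ℤ) + 1 - π) (2 * κ j - 1 + π.toNat) x
  have e : (-(κ j : ℤ) + 1 - π) + ((2 * κ j - 1 + π.toNat : ℕ) : ℤ) = κ j := by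
    rcases hπ with rfl | rfl
    · simp
      omega
    · simp
      omega
  rw [e] at h1
  rw [mul_assoc, h1]
  simp only [Fintype.sum_bool, gg, nu, sg, if_true, Bool.false_eq_true, if_false, one_mul,
    add_zero]
  have e2 : -1 * (κ j : ℤ) + (1 - π) = -(κ j : ℤ) + 1 - π := by ring
  rw [e2]
  ring

theorem coeFn_sum {M : ℕ} (w : ℕ → ℂ) (f : ℕ → L1) (g : ℕ → Circ → ℂ)
    (h : ∀ j, (f j : Circ → ℂ) =ᵐ[haarAddCircle] g j) :
    ((∑ j ∈ Finset.range M, w j • f j : L1) : Circ → ℂ) =ᵐ[haarAddCircle]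
      fun x => ∑ j ∈ Finset.range M, w j * g j x := by
  induction M with
  | zero =>
    simp only [Finset.range_zero, Finset.sum_empty]
    exact Lp.coeFn_zero _ _ _
  | succ M ih =>
    rw [Finset.sum_range_succ]
    filter_upwards [Lp.coeFn_add (∑ j ∈ Finset.range M, w j • f j) (w M • f M),
      Lp.coeFn_smul (w M) (f M), ih, h M] with x h1 h2 h3 h4
    rw [h1, Pi.add_apply, h2, Pi.smul_apply, h3, h4, Finset.sum_range_succ, smul_eq_mul]

theorem norm_DK (κ : ℕ → ℕ) (π : ℤ) (M : ℕ) (w : ℕ → ℂ) :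
    ‖∑ j ∈ Finset.range M, w j • DK (κ j) π‖ = ∫ x, ‖DD κ π M w x‖ ∂(haarAddCircle : Measure Circ) := by
  rw [Pool.Agent.H87.Synth.norm_eq]
  refine integral_congr_ae ?_
  have h := coeFn_sum (M := M) w (fun j => DK (κ j) π)
    (fun j x => ∑ k ∈ Finset.Ico (-(κ j : ℤ) + 1 - π) (κ j : ℤ), (fourier k x : ℂ)) (fun j => by
      have := coeFn_sum_ex (Finset.Ico (-(κ j : ℤ) + 1 - π) (κ j : ℤ)) (fun _ => 1)
      simpa [DK] using this)
  filter_upwards [h] with x hx
  rw [hx]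
  rfl

theorem continuous_FW (n : ℕ) : Continuous (FW n) := by
  unfold FW
  refine continuous_const.mul (Continuous.pow (Continuous.norm ?_) 2)
  exact continuous_finsetSum _ fun k _ => (fourier (k : ℤ)).continuous

theorem continuous_term (κ : ℕ → ℕ) (π : ℤ) (M : ℕ) (w : ℕ → ℂ) (n : ℕ) :
    Continuous fun x : Circ => FW n x * (‖DD κ π M w x‖ * rho x) :=
  (continuous_FW n).mul ((continuous_DD κ π M w).norm.mul continuous_rho)

theorem integrable_of_cont {f : Circ → ℝ} (hf : Continuous f) :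
    Integrable f (haarAddCircle : Measure Circ) :=
  hf.integrable_of_hasCompactSupport (HasCompactSupport.of_compactSpace _)

theorem FW_nonneg (n : ℕ) (x : Circ) : 0 ≤ FW n x := by
  unfold FW
  positivity

theorem pf_LBD (h1 : T_L1L) (h2 : T_SUF) : T_LBD := by
  intro T M κ π w hT hπ hg hκ
  set W := ∑ j ∈ Finset.range M, ‖w j‖ ^ 2 with hW
  have hW0 : 0 ≤ W := Finset.sum_nonneg fun j _ => sq_nonneg _
  rw [norm_DK]
  set I := ∫ x, ‖DD κ π M w x‖ ∂(haarAddCircle : Measure Circ) with hI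
  have hnorm : ∀ x, ‖ES (IS M) (nu κ π) (gg w) x‖ = ‖DD κ π M w x‖ * rho x := by
    intro x
    rw [ES_eq hπ hκ, norm_mul]
    rfl
  have hcD := (continuous_DD κ π M w).norm
  -- each weight
  have ht : ∀ t ∈ Finset.range T, √(2 / 3) * √W ≤
      ∫ x, FW (2 ^ t) x * (‖DD κ π M w x‖ * rho x) ∂(haarAddCircle : Measure Circ) := by
    intro t ht
    have h3 := h1 (ℕ × Bool) (IS M) (nu κ π) (gg w) tau (2 ^ t) Nat.one_le_two_pow
      (quad hT hπ hg (Finset.mem_range.1 ht))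
    have h4 : ∑ a ∈ IS M, ‖gg w a‖ ^ 2 = 2 * W := by
      unfold IS
      rw [Finset.sum_product, hW, Finset.mul_sum]
      refine Finset.sum_congr rfl fun j _ => ?_
      simp [gg]
      ring
    rw [h4] at h3
    simp only [hnorm] at h3
    rw [← Real.sqrt_mul (by norm_num)]
    apply Real.sqrt_le_iff.2
    constructor
    · refine integral_nonneg fun x => ?_
      exact mul_nonneg (FW_nonneg _ _) (mul_nonneg (norm_nonneg _) (rho_nonneg _))
    · linarith
  have hsum : T * (√(2 / 3) * √W) ≤ 8 * I := by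
    calc T * (√(2 / 3) * √W) = ∑ t ∈ Finset.range T, √(2 / 3) * √W := by
          rw [Finset.sum_const, Finset.card_range, nsmul_eq_mul]
      _ ≤ ∑ t ∈ Finset.range T,
          ∫ x, FW (2 ^ t) x * (‖DD κ π M w x‖ * rho x) ∂(haarAddCircle : Measure Circ) :=
        Finset.sum_le_sum ht
      _ = ∫ x, ∑ t ∈ Finset.range T,
          FW (2 ^ t) x * (‖DD κ π M w x‖ * rho x) ∂(haarAddCircle : Measure Circ) := by
        rw [integral_finsetSum _ fun t _ => integrable_of_cont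
          (continuous_term κ π M w (2 ^ t))]
      _ ≤ ∫ x, 8 * ‖DD κ π M w x‖ ∂(haarAddCircle : Measure Circ) := by
        refine integral_mono (integrable_of_cont (continuous_finsetSum _ fun t _ =>
          continuous_term κ π M w (2 ^ t)))
          (integrable_of_cont (continuous_const.mul hcD)) fun x => ?_
        have h5 := h2 T x
        calc ∑ t ∈ Finset.range T, FW (2 ^ t) x * (‖DD κ π M w x‖ * rho x) =
            (rho x * ∑ t ∈ Finset.range T, FW (2 ^ t) x) * ‖DD κ π M w x‖ := by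
              rw [← Finset.sum_mul]
              ring
          _ ≤ 8 * ‖DD κ π M w x‖ := mul_le_mul_of_nonneg_right h5 (norm_nonneg _)
      _ = 8 * I := by rw [integral_const_mul]
  have h6 : (4 / 5 : ℝ) ≤ √(2 / 3) := by
    apply Real.le_sqrt_of_sq_le
    norm_num
  have h7 : (4 / 5 : ℝ) * √W ≤ √(2 / 3) * √W := mul_le_mul_of_nonneg_right h6 (Real.sqrt_nonneg _)
  have h8 : (T : ℝ) * ((4 / 5 : ℝ) * √W) ≤ T * (√(2 / 3) * √W) :=
    mul_le_mul_of_nonneg_left h7 (Nat.cast_nonneg _)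
  linarith

end

end Pool.Agent.H59.ILV
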